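import Mathlib

set_option autoImplicit false

namespace Pool.Agent.H727.T

open ArithmeticFunction Finset

/-- `F n = ∑_{d ∣ n} d τ(d)` -/
def FA : ArithmeticFunction ℕ := (pmul (ArithmeticFunction.id) (sigma 0)) * zeta

theorem FA_apply (n : ℕ) : FA n = ∑ d ∈ n.divisors, d * d.divisors.card := by
  unfold FA
  rw [mul_zeta_apply]
  refine Finset.sum_congr rfl fun d _ => ?_
  rw [pmul_apply, id_apply, sigma_zero_apply]

theorem FA_mult : FA.IsMultiplicative := by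
  unfold FA
  exact (isMultiplicative_id.pmul isMultiplicative_sigma).mul isMultiplicative_zeta

theorem FA_two_pow (k : ℕ) : FA (2 ^ k) = k * 2 ^ (k + 1) + 1 := by
  rw [FA_apply, Nat.sum_divisors_prime_pow Nat.prime_two]
  induction k with
  | zero => simp
  | succ k ih =>
    rw [Finset.sum_range_succ, ih, Nat.divisors_prime_pow Nat.prime_two, Finset.card_map,
      Finset.card_range]
    ring

theorem sigma_two_pow (k : ℕ) : (sigma 1 (2 ^ k) : ℤ) = 2 ^ (k + 1) - 1 := by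
  rw [sigma_one_apply, Nat.sum_divisors_prime_pow Nat.prime_two]
  push_cast
  induction k with
  | zero => simp
  | succ k ih => rw [Finset.sum_range_succ, ih]; ring

/-- the function of the problem -/
def a (n : ℕ) : ℤ :=
  (n : ℤ) * n.divisors.card - ∑ d ∈ n.properDivisors, (d : ℤ) * d.divisors.card

theorem a_eq {n : ℕ} (hn : n ≠ 0) : a n = 2 * (n * n.divisors.card) - (FA n : ℤ) := by
  unfold a
  rw [FA_apply, ← Nat.cons_self_properDivisors hn, Finset.sum_cons]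
  push_cast
  rw [Nat.cons_self_properDivisors hn]
  ring

theorem main_eq {k m : ℕ} (hm : Odd m)
    (h : a (2 ^ k * m) = ∑ d ∈ (2 ^ k * m).divisors, (d : ℤ)) :
    (2 : ℤ) ^ (k + 1) * ((k + 1) * (m * m.divisors.card)) =
      (2 ^ (k + 1) - 1) * (∑ d ∈ m.divisors, (d : ℤ)) + (k * 2 ^ (k + 1) + 1) * (FA m : ℤ) := by
  have hm0 : m ≠ 0 := by rintro rfl; exact absurd hm (by decide)
  have hcop : Nat.Coprime (2 ^ k) m := (Nat.coprime_two_left.2 hm).pow_left k
  have hn0 : 2 ^ k * m ≠ 0 := mul_ne_zero (pow_ne_zero _ two_ne_zero) hm0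
  rw [a_eq hn0] at h
  have h1 : (∑ d ∈ (2 ^ k * m).divisors, (d : ℤ)) =
      (2 ^ (k + 1) - 1) * (∑ d ∈ m.divisors, (d : ℤ)) := by
    have e1 : (∑ d ∈ (2 ^ k * m).divisors, (d : ℤ)) = (sigma 1 (2 ^ k * m) : ℤ) := by
      rw [sigma_one_apply]; push_cast; rfl
    have e2 : (∑ d ∈ m.divisors, (d : ℤ)) = (sigma 1 m : ℤ) := by
      rw [sigma_one_apply]; push_cast; rfl
    rw [e1, e2, isMultiplicative_sigma.map_mul_of_coprime hcop, Nat.cast_mul, sigma_two_pow]
  have h2 : FA (2 ^ k * m) = (k * 2 ^ (k + 1) + 1) * FA m := by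
    rw [FA_mult.map_mul_of_coprime hcop, FA_two_pow]
  have h3 : (2 ^ k * m).divisors.card = (k + 1) * m.divisors.card := by
    rw [hcop.card_divisors_mul, Nat.divisors_prime_pow Nat.prime_two, Finset.card_map,
      Finset.card_range]
  rw [h1, h2, h3] at h
  push_cast at h
  linear_combination h

theorem two_pow_dvd_geom {p : ℕ} (hp : Odd p) : ∀ (s N : ℕ), 2 ^ s ∣ N →
    2 ^ s ∣ ∑ i ∈ Finset.range N, p ^ i := by
  intro s
  induction s with
  | zero => intro N _; simp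
  | succ s ih =>
    intro N hN
    obtain ⟨q, hq⟩ := hN
    have h1 : N = 2 ^ s * q + 2 ^ s * q := by rw [hq]; ring
    have h2 : ∑ i ∈ Finset.range N, p ^ i =
        (1 + p ^ (2 ^ s * q)) * ∑ i ∈ Finset.range (2 ^ s * q), p ^ i := by
      rw [h1, Finset.sum_range_add, add_mul, one_mul, Finset.mul_sum]
      congr 1
      refine Finset.sum_congr rfl fun i _ => ?_
      rw [pow_add]
    rw [h2, pow_succ, mul_comm (2 ^ s) 2]
    apply mul_dvd_mul
    · have h3 : Odd (p ^ (2 ^ s * q)) := hp.pow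
      have h4 : Even (1 + p ^ (2 ^ s * q)) := by
        rw [add_comm]; exact h3.add_one
      exact h4.two_dvd
    · exact ih _ (dvd_mul_right _ _)

/-- `2 ^ t ∣ τ(m)` implies `2 ^ t ∣ σ(m)` for odd `m` -/
theorem two_pow_dvd_sigma {m t : ℕ} (hm : Odd m) (ht : 2 ^ t ∣ m.divisors.card) :
    2 ^ t ∣ ∑ d ∈ m.divisors, d := by
  revert t hm
  induction m using Nat.recOnPosPrimePosCoprime with
  | prime_pow p n hp hn =>
    intro t hm ht
    rw [Nat.divisors_prime_pow hp, Finset.card_map, Finset.card_range] at ht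
    rw [Nat.sum_divisors_prime_pow hp]
    apply two_pow_dvd_geom _ _ _ ht
    rcases hp.eq_two_or_odd' with h | h
    · exfalso
      rw [h] at hm
      have : Even (2 ^ n) := (even_two).pow_of_ne_zero hn.ne'
      exact (Nat.not_even_iff_odd.2 hm) this
    · exact h
  | zero => intro _ hm; exact absurd hm (by decide)
  | one =>
    intro t _ ht
    simpa using ht
  | coprime x y _ _ hxy ihx ihy =>
    intro t hm ht
    obtain ⟨hx, hy⟩ := Nat.odd_mul.1 hm
    rw [hxy.card_divisors_mul, Nat.dvd_mul] at ht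
    obtain ⟨u, v, hu, hv, huv⟩ := ht
    obtain ⟨i, -, hi⟩ := (Nat.dvd_prime_pow Nat.prime_two).1 (huv ▸ dvd_mul_right u v)
    obtain ⟨j, -, hj⟩ := (Nat.dvd_prime_pow Nat.prime_two).1 (huv ▸ dvd_mul_left v u)
    rw [hi] at hu
    rw [hj] at hv
    have e : ∑ d ∈ (x * y).divisors, d = (∑ d ∈ x.divisors, d) * ∑ d ∈ y.divisors, d :=
      hxy.sum_divisors_mul
    rw [e, ← huv, hi, hj]
    exact mul_dvd_mul (ihx hx hu) (ihy hy hv)

theorem crit {k m t : ℕ} (hm : Odd m) (ht : 2 ^ t ∣ m.divisors.card)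
    (h : a (2 ^ k * m) = ∑ d ∈ (2 ^ k * m).divisors, (d : ℤ)) :
    2 ^ t ∣ FA m ∧ (2 : ℤ) ^ (t + k + 1) ∣ (FA m : ℤ) - ∑ d ∈ m.divisors, (d : ℤ) := by
  have h1 := main_eq hm h
  have h2 := two_pow_dvd_sigma hm ht
  obtain ⟨u, hu⟩ := ht
  obtain ⟨v, hv⟩ := h2
  have hv' : (∑ d ∈ m.divisors, (d : ℤ)) = 2 ^ t * v := by
    have := congrArg (fun x : ℕ => (x : ℤ)) hv
    push_cast at this
    exact this
  rw [hu, hv'] at h1
  push_cast at h1
  have h3 : (2 : ℤ) ^ t ∣ (k * 2 ^ (k + 1) + 1) * (FA m : ℤ) := by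
    refine ⟨2 ^ (k + 1) * ((k + 1) * (m * u)) - (2 ^ (k + 1) - 1) * v, ?_⟩
    linear_combination -h1
  have hodd : IsCoprime ((2 : ℤ) ^ t) (k * 2 ^ (k + 1) + 1) := by
    apply IsCoprime.pow_left
    refine ⟨-(k * 2 ^ k), 1, ?_⟩
    ring
  have h4 : (2 : ℤ) ^ t ∣ (FA m : ℤ) := hodd.dvd_of_dvd_mul_left h3
  refine ⟨by exact_mod_cast h4, ?_⟩
  obtain ⟨w, hw⟩ := h4
  rw [hw] at h1
  rw [hw, hv']
  refine ⟨(k + 1) * (m * u) - v - k * w, ?_⟩
  have e : (2 : ℤ) ^ (t + k + 1) = 2 ^ t * 2 ^ (k + 1) := by ring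
  rw [e]
  linear_combination -h1

end Pool.Agent.H727.T
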