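import Mathlib

set_option autoImplicit false

namespace Pool.Agent.H727.T

open Finset

/-- no prime of `P` divides `n` exactly once -/
def Q (P : Finset ℕ) (n : ℕ) : Prop := ∀ p ∈ P, ¬ (p ∣ n ∧ ¬ p ^ 2 ∣ n)

instance (P : Finset ℕ) : DecidablePred (Q P) := fun n => by unfold Q; infer_instance

def A (P : Finset ℕ) (N : ℕ) : ℕ := ((Icc 1 N).filter (Q P)).card

theorem Q_mul {P : Finset ℕ} {c m : ℕ} (hcop : ∀ p ∈ P, Nat.Coprime p c) :
    Q P (c * m) ↔ Q P m := by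
  unfold Q
  refine forall₂_congr fun p hp => ?_
  have h1 : p ∣ c * m ↔ p ∣ m := (hcop p hp).dvd_mul_left
  have h2 : p ^ 2 ∣ c * m ↔ p ^ 2 ∣ m := ((hcop p hp).pow_left 2).dvd_mul_left
  rw [h1, h2]

theorem card_dvd {P : Finset ℕ} (N : ℕ) {c : ℕ} (hc : 0 < c) (hcop : ∀ p ∈ P, Nat.Coprime p c) :
    (((Icc 1 N).filter (Q P)).filter (fun n => c ∣ n)).card = A P (N / c) := by
  symm
  unfold A
  apply Finset.card_bij (fun m _ => c * m)
  · intro m hm
    simp only [mem_filter, mem_Icc] at hm ⊢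
    refine ⟨⟨⟨Nat.mul_pos hc hm.1.1, ?_⟩, (Q_mul hcop).2 hm.2⟩, dvd_mul_right _ _⟩
    calc c * m ≤ c * (N / c) := Nat.mul_le_mul_left _ hm.1.2
      _ ≤ N := Nat.mul_div_le _ _
  · intro x _ y _ h
    exact Nat.eq_of_mul_eq_mul_left hc h
  · intro n hn
    simp only [mem_filter, mem_Icc] at hn
    obtain ⟨⟨⟨h1, h2⟩, h3⟩, ⟨m, rfl⟩⟩ := hn
    refine ⟨m, ?_, rfl⟩
    simp only [mem_filter, mem_Icc]
    refine ⟨⟨Nat.pos_of_mul_pos_left h1 |> fun h => h, ?_⟩, (Q_mul hcop).1 h3⟩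
    rw [Nat.le_div_iff_mul_le hc, mul_comm]
    exact h2

theorem A_insert {P : Finset ℕ} (hP : ∀ p ∈ P, p.Prime) {q : ℕ} (hq : q.Prime) (hqP : q ∉ P)
    (N : ℕ) : A (insert q P) N + A P (N / q) = A P N + A P (N / q ^ 2) := by
  have hcop : ∀ p ∈ P, Nat.Coprime p q := fun p hp =>
    (Nat.coprime_primes (hP p hp) hq).2 (fun h => hqP (h ▸ hp))
  have hcop2 : ∀ p ∈ P, Nat.Coprime p (q ^ 2) := fun p hp => (hcop p hp).pow_right 2
  rw [← card_dvd N hq.pos hcop, ← card_dvd N (pow_pos hq.pos 2) hcop2]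
  have e1 : A (insert q P) N =
      (((Icc 1 N).filter (Q P)).filter (fun n => ¬ (q ∣ n ∧ ¬ q ^ 2 ∣ n))).card := by
    unfold A
    congr 1
    ext n
    simp only [mem_filter, Q, mem_insert, forall_eq_or_imp]
    tauto
  rw [e1]
  set S := (Icc 1 N).filter (Q P) with hS
  have e2 : A P N = S.card := rfl
  rw [e2]
  have h1 : S.card = (S.filter (fun n => q ∣ n ∧ ¬ q ^ 2 ∣ n)).card +
      (S.filter (fun n => ¬ (q ∣ n ∧ ¬ q ^ 2 ∣ n))).card :=
    (Finset.card_filter_add_card_filter_not _).symm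
  have h2 : (S.filter (fun n => q ∣ n)).card =
      ((S.filter (fun n => q ∣ n)).filter (fun n => q ^ 2 ∣ n)).card +
      ((S.filter (fun n => q ∣ n)).filter (fun n => ¬ q ^ 2 ∣ n)).card :=
    (Finset.card_filter_add_card_filter_not _).symm
  have h3 : (S.filter (fun n => q ∣ n)).filter (fun n => q ^ 2 ∣ n) =
      S.filter (fun n => q ^ 2 ∣ n) := by
    ext n
    simp only [mem_filter]
    constructor
    · rintro ⟨⟨h, _⟩, h'⟩; exact ⟨h, h'⟩
    · rintro ⟨h, h'⟩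
      exact ⟨⟨h, dvd_trans (dvd_pow_self q two_ne_zero) h'⟩, h'⟩
  have h4 : (S.filter (fun n => q ∣ n)).filter (fun n => ¬ q ^ 2 ∣ n) =
      S.filter (fun n => q ∣ n ∧ ¬ q ^ 2 ∣ n) := by
    ext n
    simp only [mem_filter]
    tauto
  rw [h3, h4] at h2
  omega

/-- the density -/
noncomputable def cP (P : Finset ℕ) : ℝ := ∏ p ∈ P, (1 - 1 / (p : ℝ) + 1 / (p : ℝ) ^ 2)

theorem factor_bd {p : ℕ} (hp : 2 ≤ p) : 0 ≤ 1 - 1 / (p : ℝ) + 1 / (p : ℝ) ^ 2 ∧
    1 - 1 / (p : ℝ) + 1 / (p : ℝ) ^ 2 ≤ Real.exp (-(1 / (2 * p))) := by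
  have h2 : (2 : ℝ) ≤ p := by exact_mod_cast hp
  have h0 : (0 : ℝ) < p := by linarith
  constructor
  · have : 1 / (p : ℝ) ≤ 1 := by rw [div_le_one h0]; linarith
    have : 0 ≤ 1 / (p : ℝ) ^ 2 := by positivity
    linarith
  · have h1 : 1 / (p : ℝ) ^ 2 ≤ 1 / (2 * p) := by
      apply one_div_le_one_div_of_le (by positivity)
      nlinarith
    have h3 : 1 / (p : ℝ) = 1 / (2 * p) + 1 / (2 * p) := by field_simp; ring
    have h4 := Real.add_one_le_exp (-(1 / (2 * (p : ℝ))))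
    linarith

theorem cP_nonneg {P : Finset ℕ} (hP : ∀ p ∈ P, p.Prime) : 0 ≤ cP P :=
  Finset.prod_nonneg fun p hp => (factor_bd (hP p hp).two_le).1

theorem cast_div_bd (N q : ℕ) (hq : 0 < q) : |((N / q : ℕ) : ℝ) - (N : ℝ) / q| ≤ 1 := by
  have hq' : (0 : ℝ) < q := by exact_mod_cast hq
  have h1 : (N : ℝ) = q * ((N / q : ℕ) : ℝ) + ((N % q : ℕ) : ℝ) := by
    exact_mod_cast (Nat.div_add_mod N q).symm
  have h2 : ((N % q : ℕ) : ℝ) < q := by exact_mod_cast Nat.mod_lt N hq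
  have h3 : (0 : ℝ) ≤ ((N % q : ℕ) : ℝ) := Nat.cast_nonneg _
  have h4 : (N : ℝ) / q = ((N / q : ℕ) : ℝ) + ((N % q : ℕ) : ℝ) / q := by
    rw [div_eq_iff hq'.ne', add_mul, div_mul_cancel₀ _ hq'.ne']
    linarith
  rw [h4]
  have h5 : ((N % q : ℕ) : ℝ) / q ≤ 1 := by rw [div_le_one hq']; exact h2.le
  have h6 : 0 ≤ ((N % q : ℕ) : ℝ) / q := by positivity
  rw [abs_le]
  constructor <;> linarith

theorem A_asymp (P : Finset ℕ) : (∀ p ∈ P, p.Prime) →
    ∃ C : ℝ, 0 ≤ C ∧ ∀ N : ℕ, |(A P N : ℝ) - cP P * N| ≤ C := by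
  induction P using Finset.induction_on with
  | empty =>
    intro _
    refine ⟨0, le_rfl, fun N => ?_⟩
    have : A ∅ N = N := by
      unfold A
      rw [Finset.filter_true_of_mem (fun n _ p hp => absurd hp (Finset.notMem_empty p))]
      simp
    rw [this]
    simp [cP]
  | insert q P hqP ih =>
    intro hP
    have hP' : ∀ p ∈ P, p.Prime := fun p hp => hP p (mem_insert_of_mem hp)
    have hq : q.Prime := hP q (mem_insert_self _ _)
    obtain ⟨C, hC0, hC⟩ := ih hP'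
    have hc0 := cP_nonneg hP'
    refine ⟨3 * C + 2 * cP P, by positivity, fun N => ?_⟩
    have h1 := A_insert hP' hq hqP N
    have h1' : (A (insert q P) N : ℝ) = A P N - A P (N / q) + A P (N / q ^ 2) := by
      have : (A (insert q P) N : ℝ) + A P (N / q) = A P N + A P (N / q ^ 2) := by
        exact_mod_cast h1
      linarith
    have h2 : cP (insert q P) = (1 - 1 / (q : ℝ) + 1 / (q : ℝ) ^ 2) * cP P := by
      unfold cP
      rw [Finset.prod_insert hqP]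
    have a1 := hC N
    have a2 := hC (N / q)
    have a3 := hC (N / q ^ 2)
    have b2 := cast_div_bd N q hq.pos
    have b3 := cast_div_bd N (q ^ 2) (pow_pos hq.pos 2)
    push_cast at b3
    rw [h1', h2]
    have e : (A P N : ℝ) - A P (N / q) + A P (N / q ^ 2) -
        (1 - 1 / (q : ℝ) + 1 / (q : ℝ) ^ 2) * cP P * N =
        ((A P N : ℝ) - cP P * N) - ((A P (N / q) : ℝ) - cP P * ((N / q : ℕ) : ℝ)) +
        ((A P (N / q ^ 2) : ℝ) - cP P * ((N / q ^ 2 : ℕ) : ℝ)) -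
        cP P * (((N / q : ℕ) : ℝ) - (N : ℝ) / q) +
        cP P * (((N / q ^ 2 : ℕ) : ℝ) - (N : ℝ) / (q : ℝ) ^ 2) := by
      ring
    rw [e]
    have c2 : |cP P * (((N / q : ℕ) : ℝ) - (N : ℝ) / q)| ≤ cP P := by
      rw [abs_mul, abs_of_nonneg hc0]
      exact mul_le_of_le_one_right hc0 b2
    have c3 : |cP P * (((N / q ^ 2 : ℕ) : ℝ) - (N : ℝ) / (q : ℝ) ^ 2)| ≤ cP P := by
      rw [abs_mul, abs_of_nonneg hc0]
      exact mul_le_of_le_one_right hc0 b3
    rw [abs_le] at *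
    constructor <;> linarith [a1.1, a1.2, a2.1, a2.2, a3.1, a3.2, c2.1, c2.2, c3.1, c3.2]

/-- blocks of primes with small density -/
theorem exists_block (B : ℕ) {ε : ℝ} (hε : 0 < ε) :
    ∃ B' : ℕ, B ≤ B' ∧ cP ((Ioc B B').filter Nat.Prime) ≤ ε := by
  have h0 : ∀ n : ℕ, 0 ≤ Set.indicator {p : ℕ | p.Prime} (fun n : ℕ => (1 : ℝ) / n) n := by
    intro n
    apply Set.indicator_nonneg
    intro x _
    positivity
  have h1 := (not_summable_iff_tendsto_nat_atTop_of_nonneg h0).1 not_summable_one_div_on_primes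
  set f : ℕ → ℝ := Set.indicator {p : ℕ | p.Prime} (fun n : ℕ => (1 : ℝ) / n) with hf
  set T : ℝ := 2 * |Real.log ε| with hT
  obtain ⟨M, hM⟩ := ((h1.eventually_ge_atTop (T + ∑ i ∈ range (B + 1), f i)).and
    (Filter.eventually_ge_atTop (B + 1))).exists
  obtain ⟨M', rfl⟩ : ∃ M', M = M' + 1 := ⟨M - 1, by omega⟩
  refine ⟨M', by omega, ?_⟩
  have h2 : ∑ i ∈ range (M' + 1), f i = ∑ i ∈ range (B + 1), f i + ∑ i ∈ Ioc B M', f i := by
    have e : Ioc B M' = Ico (B + 1) (M' + 1) := by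
      ext x; simp only [mem_Ioc, mem_Ico]; omega
    rw [e, Finset.range_eq_Ico, Finset.range_eq_Ico,
      Finset.sum_Ico_consecutive _ (Nat.zero_le _) (by omega)]
  have h3 : T ≤ ∑ i ∈ Ioc B M', f i := by linarith [hM.1]
  have h4 : ∑ i ∈ Ioc B M', f i = ∑ p ∈ (Ioc B M').filter Nat.Prime, 1 / (p : ℝ) := by
    rw [Finset.sum_filter]
    refine Finset.sum_congr rfl fun i _ => ?_
    rw [hf, Set.indicator_apply]
    rfl
  rw [h4] at h3
  calc cP ((Ioc B M').filter Nat.Prime)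
      ≤ ∏ p ∈ (Ioc B M').filter Nat.Prime, Real.exp (-(1 / (2 * p))) := by
        apply Finset.prod_le_prod
        · intro p hp; exact (factor_bd (mem_filter.1 hp).2.two_le).1
        · intro p hp; exact (factor_bd (mem_filter.1 hp).2.two_le).2
    _ = Real.exp (-(1 / 2 * ∑ p ∈ (Ioc B M').filter Nat.Prime, 1 / (p : ℝ))) := by
        rw [← Real.exp_sum, Finset.mul_sum, ← Finset.sum_neg_distrib]
        congr 1
        refine Finset.sum_congr rfl fun p _ => ?_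
        rw [one_div_mul_one_div_rev, mul_comm]
    _ ≤ Real.exp (Real.log ε) := by
        apply Real.exp_le_exp.2
        have := neg_abs_le (Real.log ε)
        linarith
    _ = ε := Real.exp_log hε

theorem sq_count (D N : ℕ) (hD : 0 < D) :
    (((Icc 1 N).filter (fun n => ∃ d ∈ Ioc D N, d ^ 2 ∣ n)).card : ℝ) ≤ N / D := by
  have h1 : (Icc 1 N).filter (fun n => ∃ d ∈ Ioc D N, d ^ 2 ∣ n) ⊆
      (Ioc D N).biUnion (fun d => (Ioc 0 N).filter (fun n => d ^ 2 ∣ n)) := by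
    intro n hn
    simp only [mem_filter, mem_Icc, mem_biUnion, mem_Ioc] at hn ⊢
    obtain ⟨hn1, d, hd, hdn⟩ := hn
    exact ⟨d, hd, ⟨by omega, hn1.2⟩, hdn⟩
  have h2 := (Finset.card_le_card h1).trans Finset.card_biUnion_le
  have h3 : ∀ d ∈ Ioc D N, (((Ioc 0 N).filter (fun n => d ^ 2 ∣ n)).card : ℝ) ≤
      N * ((d : ℝ) ^ 2)⁻¹ := by
    intro d _
    rw [Nat.Ioc_filter_dvd_card_eq_div]
    refine (Nat.cast_div_le).trans ?_
    push_cast
    rw [div_eq_mul_inv]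
  rcases le_total D N with hDN | hDN
  · calc (((Icc 1 N).filter (fun n => ∃ d ∈ Ioc D N, d ^ 2 ∣ n)).card : ℝ)
        ≤ ((∑ d ∈ Ioc D N, ((Ioc 0 N).filter (fun n => d ^ 2 ∣ n)).card : ℕ) : ℝ) := by
          exact_mod_cast h2
      _ = ∑ d ∈ Ioc D N, (((Ioc 0 N).filter (fun n => d ^ 2 ∣ n)).card : ℝ) := by push_cast; rfl
      _ ≤ ∑ d ∈ Ioc D N, N * ((d : ℝ) ^ 2)⁻¹ := Finset.sum_le_sum h3
      _ = N * ∑ d ∈ Ioc D N, ((d : ℝ) ^ 2)⁻¹ := by rw [Finset.mul_sum]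
      _ ≤ N * ((D : ℝ)⁻¹ - (N : ℝ)⁻¹) := by
          apply mul_le_mul_of_nonneg_left _ (Nat.cast_nonneg _)
          exact sum_Ioc_inv_sq_le_sub hD.ne' hDN
      _ ≤ N / D := by
          rw [div_eq_mul_inv]
          apply mul_le_mul_of_nonneg_left _ (Nat.cast_nonneg _)
          have : (0 : ℝ) ≤ (N : ℝ)⁻¹ := by positivity
          linarith
  · have : Ioc D N = ∅ := by rw [Finset.Ioc_eq_empty_iff]; omega
    rw [this]
    simp
    positivity

end Pool.Agent.H727.T
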