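import Mathlib
import Pool.Agent.H727.T1
import Pool.Agent.H727.T2

/-!
# MP_846857: for almost all `n`, `a(n) ≠ σ(n)`
-/

set_option autoImplicit false

namespace Pool.Agent.Results.MP_846857_nt.DensityZero

open Finset Filter Topology
open Pool.Agent.H727.T (FA A cP Q)

/-- The function of the problem: `a(n) = n τ(n) - ∑_{d ∣ n, d < n} d τ(d)`. -/
def a (n : ℕ) : ℤ :=
  (n : ℤ) * n.divisors.card - ∑ d ∈ n.properDivisors, (d : ℤ) * d.divisors.card

/-- `σ(n)`, the sum of the divisors of `n`. -/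
def sig (n : ℕ) : ℤ := ∑ d ∈ n.divisors, (d : ℤ)

/-- `∑_{d ∣ n} d τ(d)` -/
def F (n : ℕ) : ℕ := ∑ d ∈ n.divisors, d * d.divisors.card

theorem F_eq (n : ℕ) : F n = FA n := (Pool.Agent.H727.T.FA_apply n).symm

theorem F_le (n : ℕ) : FA n ≤ n ^ 3 := by
  rw [Pool.Agent.H727.T.FA_apply]
  calc ∑ d ∈ n.divisors, d * d.divisors.card ≤ ∑ _d ∈ n.divisors, n * n := by
        apply Finset.sum_le_sum
        intro d hd
        have h1 : d ≤ n := Nat.divisor_le hd
        exact Nat.mul_le_mul h1 ((Nat.card_divisors_le_self d).trans h1)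
    _ = n.divisors.card * (n * n) := by rw [Finset.sum_const, smul_eq_mul]
    _ ≤ n * (n * n) := Nat.mul_le_mul_right _ (Nat.card_divisors_le_self n)
    _ = n ^ 3 := by ring

/-- a large power of two in `F(m)` gives a large square divisor of `m` -/
theorem square_divisor {m K : ℕ} (hm : Odd m) (h : 2 ^ K ∣ FA m) :
    ∃ d : ℕ, d ^ 2 ∣ m ∧ 2 ^ K ≤ d ^ 9 := by
  have hm0 : m ≠ 0 := by rintro rfl; exact absurd hm (by decide)
  have hF : FA m = ∏ p ∈ m.primeFactors, FA (p ^ m.factorization p) := by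
    rw [Pool.Agent.H727.T.FA_mult.multiplicative_factorization FA hm0]
    rfl
  set S := m.primeFactors.filter (fun p => 2 ≤ m.factorization p) with hS
  have hsplit : FA m = (∏ p ∈ S, FA (p ^ m.factorization p)) *
      ∏ p ∈ m.primeFactors.filter (fun p => ¬ 2 ≤ m.factorization p),
        FA (p ^ m.factorization p) := by
    rw [hF, hS, Finset.prod_filter_mul_prod_filter_not]
  have hodd : Odd (∏ p ∈ m.primeFactors.filter (fun p => ¬ 2 ≤ m.factorization p),
      FA (p ^ m.factorization p)) := by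
    apply Finset.prod_induction _ Odd (fun _ _ => Odd.mul) odd_one
    intro p hp
    rw [mem_filter] at hp
    have hpp := Nat.prime_of_mem_primeFactors hp.1
    have h1 : 0 < m.factorization p := hpp.factorization_pos_of_dvd hm0
      (Nat.dvd_of_mem_primeFactors hp.1)
    have h2 : m.factorization p = 1 := by omega
    rw [h2, pow_one, Pool.Agent.H727.T.FA_apply, hpp.sum_divisors, hpp.divisors,
      Nat.divisors_one, Finset.card_pair hpp.one_lt.ne]
    simp
  have hdvd : 2 ^ K ∣ ∏ p ∈ S, FA (p ^ m.factorization p) := by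
    rw [hsplit] at h
    exact (Nat.Coprime.pow_left K (Nat.coprime_two_left.2 hodd)).dvd_of_dvd_mul_right h
  refine ⟨∏ p ∈ S, p ^ (m.factorization p / 2), ?_, ?_⟩
  · have h1 : (∏ p ∈ S, p ^ (m.factorization p / 2)) ^ 2 ∣ ∏ p ∈ S, p ^ m.factorization p := by
      rw [← Finset.prod_pow]
      apply Finset.prod_dvd_prod_of_dvd
      intro p _
      rw [← pow_mul]
      exact pow_dvd_pow _ (Nat.div_mul_le_self _ _)
    have h2 : ∏ p ∈ S, p ^ m.factorization p ∣ ∏ p ∈ m.primeFactors, p ^ m.factorization p :=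
      Finset.prod_dvd_prod_of_subset _ _ _ (Finset.filter_subset _ _)
    have h3 : ∏ p ∈ m.primeFactors, p ^ m.factorization p = m :=
      Nat.prod_factorization_pow_eq_self hm0
    rw [h3] at h2
    exact h1.trans h2
  · have hpos : 0 < ∏ p ∈ S, FA (p ^ m.factorization p) := by
      rcases Nat.eq_zero_or_pos (∏ p ∈ S, FA (p ^ m.factorization p)) with h0 | h0
      · exfalso
        rw [h0, zero_mul] at hsplit
        have h1 : 1 ≤ FA m := by
          rw [Pool.Agent.H727.T.FA_apply]
          calc 1 = ∑ d ∈ ({1} : Finset ℕ), d * d.divisors.card := by simp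
            _ ≤ ∑ d ∈ m.divisors, d * d.divisors.card := by
              apply Finset.sum_le_sum_of_subset
              intro x hx
              rw [mem_singleton] at hx
              rw [hx]
              exact Nat.one_mem_divisors.2 hm0
        omega
      · exact h0
    calc 2 ^ K ≤ ∏ p ∈ S, FA (p ^ m.factorization p) := Nat.le_of_dvd hpos hdvd
      _ ≤ ∏ p ∈ S, (p ^ (m.factorization p / 2)) ^ 9 := by
          apply Finset.prod_le_prod' 
          intro p hp
          rw [mem_filter] at hp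
          have hpp := Nat.prime_of_mem_primeFactors hp.1
          calc FA (p ^ m.factorization p) ≤ (p ^ m.factorization p) ^ 3 := F_le _
            _ = p ^ (m.factorization p * 3) := by rw [← pow_mul]
            _ ≤ p ^ (m.factorization p / 2 * 9) := by
                apply Nat.pow_le_pow_right hpp.pos
                have := hp.2
                omega
            _ = (p ^ (m.factorization p / 2)) ^ 9 := by rw [← pow_mul]
      _ = (∏ p ∈ S, p ^ (m.factorization p / 2)) ^ 9 := by rw [Finset.prod_pow]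

/-- `K` odd primes dividing `m` exactly once give `2 ^ K ∣ τ(m)` -/
theorem two_pow_dvd_card {m K : ℕ} (hm0 : m ≠ 0) (p : Fin K → ℕ) (hinj : Function.Injective p)
    (hp : ∀ i, (p i).Prime) (hd : ∀ i, p i ∣ m) (hd2 : ∀ i, ¬ p i ^ 2 ∣ m) :
    2 ^ K ∣ m.divisors.card := by
  rw [Nat.card_divisors hm0]
  have h1 : ∏ x ∈ Finset.univ.image p, (m.factorization x + 1) ∣
      ∏ x ∈ m.primeFactors, (m.factorization x + 1) := by
    apply Finset.prod_dvd_prod_of_subset
    intro x hx
    rw [mem_image] at hx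
    obtain ⟨i, _, rfl⟩ := hx
    exact Nat.mem_primeFactors.2 ⟨hp i, hd i, hm0⟩
  have h2 : ∏ x ∈ Finset.univ.image p, (m.factorization x + 1) = 2 ^ K := by
    rw [Finset.prod_image (fun x _ y _ h => hinj h)]
    have : ∀ i ∈ (Finset.univ : Finset (Fin K)), m.factorization (p i) + 1 = 2 := by
      intro i _
      have a1 : 0 < m.factorization (p i) := (hp i).factorization_pos_of_dvd hm0 (hd i)
      have a2 : ¬ 2 ≤ m.factorization (p i) := fun h =>
        hd2 i (((hp i).pow_dvd_iff_le_factorization hm0).2 h)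
      omega
    rw [Finset.prod_congr rfl this, Finset.prod_const, Finset.card_univ, Fintype.card_fin]
  rw [h2] at h1
  exact h1

/-- the 2-adic criterion -/
theorem crit {k m t : ℕ} (hm : Odd m) (h : a (2 ^ k * m) = sig (2 ^ k * m))
    (ht : 2 ^ t ∣ m.divisors.card) :
    2 ^ t ∣ F m ∧ (2 : ℤ) ^ (t + k + 1) ∣ (F m : ℤ) - sig m := by
  rw [F_eq]
  exact Pool.Agent.H727.T.crit hm ht h

/-- the solutions are contained in a union of sets of small density -/
theorem inclusion {D K : ℕ} (hK : D ^ 9 < 2 ^ K) {B : ℕ → ℕ} (hB0 : 2 ≤ B 0) (hB : Monotone B)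
    (N : ℕ) : (Icc 1 N).filter (fun n => a n = sig n) ⊆
    (range K).biUnion (fun i => (Icc 1 N).filter (Q ((Ioc (B i) (B (i + 1))).filter Nat.Prime))) ∪
      (Icc 1 N).filter (fun n => ∃ d ∈ Ioc D N, d ^ 2 ∣ n) := by
  intro n hn
  rw [mem_filter, mem_Icc] at hn
  obtain ⟨⟨hn1, hnN⟩, hna⟩ := hn
  rw [mem_union]
  by_cases hex : ∃ i ∈ range K, Q ((Ioc (B i) (B (i + 1))).filter Nat.Prime) n
  · left
    obtain ⟨i, hi, hq⟩ := hex
    exact mem_biUnion.2 ⟨i, hi, mem_filter.2 ⟨mem_Icc.2 ⟨hn1, hnN⟩, hq⟩⟩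
  · right
    have h1 : ∀ i : Fin K, ∃ p, (B i < p ∧ p ≤ B (i + 1)) ∧ p.Prime ∧ p ∣ n ∧ ¬ p ^ 2 ∣ n := by
      intro i
      by_contra hcon
      apply hex
      refine ⟨i, mem_range.2 i.2, ?_⟩
      intro p hp hpn
      rw [mem_filter, mem_Ioc] at hp
      exact hcon ⟨p, hp.1, hp.2, hpn.1, hpn.2⟩
    choose p hpB hpp hpn hpn2 using h1
    obtain ⟨k, m, hm, hnm⟩ := Nat.exists_eq_two_pow_mul_odd (n := n) (by omega)
    have hm0 : m ≠ 0 := by rintro rfl; exact absurd hm (by decide)
    have hp2 : ∀ i, p i ≠ 2 := by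
      intro i h
      have h2 := (hpB i).1
      have h3 := hB (Nat.zero_le (i : ℕ))
      omega
    have hpm : ∀ i, p i ∣ m := by
      intro i
      have h2 := hpn i
      rw [hnm] at h2
      have h3 : Nat.Coprime (p i) (2 ^ k) :=
        ((Nat.coprime_primes (hpp i) Nat.prime_two).2 (hp2 i)).pow_right k
      exact h3.dvd_of_dvd_mul_left h2
    have hpm2 : ∀ i, ¬ p i ^ 2 ∣ m := by
      intro i h
      apply hpn2 i
      rw [hnm]
      exact h.mul_left _
    have hinj : Function.Injective p := by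
      intro i j hij
      by_contra hne
      rcases lt_or_gt_of_ne hne with hlt | hlt
      · have h2 := (hpB i).2
        have h3 := (hpB j).1
        have h4 : B (i + 1) ≤ B j := hB (Nat.succ_le_of_lt hlt)
        rw [hij] at h2
        omega
      · have h2 := (hpB j).2
        have h3 := (hpB i).1
        have h4 : B (j + 1) ≤ B i := hB (Nat.succ_le_of_lt hlt)
        rw [hij] at h3
        omega
    have h2 := two_pow_dvd_card hm0 p hinj hpp hpm hpm2
    rw [hnm] at hna
    have h3 := (crit hm hna h2).1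
    rw [F_eq] at h3
    obtain ⟨d, hd, hdK⟩ := square_divisor hm h3
    rw [mem_filter, mem_Icc]
    refine ⟨⟨hn1, hnN⟩, d, ?_, ?_⟩
    · rw [mem_Ioc]
      constructor
      · by_contra hcon
        push Not at hcon
        have := Nat.pow_le_pow_left hcon 9
        omega
      · have h4 : d ^ 2 ≤ m := Nat.le_of_dvd (Nat.pos_of_ne_zero hm0) hd
        have h5 : m ≤ n := by
          rw [hnm]; exact Nat.le_mul_of_pos_left _ (pow_pos two_pos k)
        have h6 : d ≤ d ^ 2 := by nlinarith [Nat.zero_le d, Nat.le_self_pow two_ne_zero d]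
        omega
    · rw [hnm]; exact hd.mul_left _

/-- the solutions have density zero -/
theorem density : Tendsto (fun N : ℕ =>
    (((Icc 1 N).filter (fun n => a n = sig n)).card : ℝ) / N) atTop (𝓝 0) := by
  rw [Metric.tendsto_atTop]
  intro ε hε
  obtain ⟨D, hD⟩ := exists_nat_gt (4 / ε)
  have hD0 : (0 : ℝ) < D := lt_trans (by positivity) hD
  have hDpos : 0 < D := by exact_mod_cast hD0
  set K := D ^ 9 with hKdef
  have hK : D ^ 9 < 2 ^ K := Nat.lt_two_pow_self
  have hδ : 0 < ε / (4 * (K + 1)) := by positivity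
  choose nxt hn1 hn2 using fun B : ℕ => Pool.Agent.H727.T.exists_block B hδ
  let B : ℕ → ℕ := fun i => Nat.rec 2 (fun _ b => nxt b) i
  have hB0 : B 0 = 2 := rfl
  have hBs : ∀ i, B (i + 1) = nxt (B i) := fun i => rfl
  have hBm : Monotone B := monotone_nat_of_le_succ (fun i => by rw [hBs]; exact hn1 _)
  have hPr : ∀ i, ∀ p ∈ (Ioc (B i) (B (i + 1))).filter Nat.Prime, p.Prime :=
    fun i p hp => (mem_filter.1 hp).2
  choose C hC0 hC using fun i => Pool.Agent.H727.T.A_asymp _ (hPr i)
  obtain ⟨N0, hN0⟩ := exists_nat_gt (4 * (∑ i ∈ range K, C i) / ε)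
  refine ⟨N0 + 1, fun N hN => ?_⟩
  have hNpos : (0 : ℝ) < N := by
    have : 0 < N := by omega
    exact_mod_cast this
  have hNN : 4 * (∑ i ∈ range K, C i) / ε < N := by
    have : (N0 : ℝ) + 1 ≤ N := by exact_mod_cast hN
    linarith
  have h1 : (((Icc 1 N).filter (fun n => a n = sig n)).card : ℝ) ≤
      (∑ i ∈ range K, (A ((Ioc (B i) (B (i + 1))).filter Nat.Prime) N : ℝ)) + N / D := by
    have e1 := (card_le_card (inclusion hK hB0.ge hBm N)).trans (card_union_le _ _)
    have e2 := card_biUnion_le (s := range K)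
      (t := fun i => (Icc 1 N).filter (Q ((Ioc (B i) (B (i + 1))).filter Nat.Prime)))
    have e3 := Pool.Agent.H727.T.sq_count D N hDpos
    have e4 : (((Icc 1 N).filter (fun n => a n = sig n)).card : ℝ) ≤
        ((∑ i ∈ range K, A ((Ioc (B i) (B (i + 1))).filter Nat.Prime) N : ℕ) : ℝ) +
        (((Icc 1 N).filter (fun n => ∃ d ∈ Ioc D N, d ^ 2 ∣ n)).card : ℝ) := by
      have : ((Icc 1 N).filter (fun n => a n = sig n)).card ≤
          (∑ i ∈ range K, A ((Ioc (B i) (B (i + 1))).filter Nat.Prime) N) +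
          ((Icc 1 N).filter (fun n => ∃ d ∈ Ioc D N, d ^ 2 ∣ n)).card :=
        e1.trans (Nat.add_le_add_right e2 _)
      exact_mod_cast this
    push_cast at e4
    linarith
  have h2 : ∀ i ∈ range K, (A ((Ioc (B i) (B (i + 1))).filter Nat.Prime) N : ℝ) ≤
      ε / (4 * (K + 1)) * N + C i := by
    intro i _
    have e1 := (abs_le.1 (hC i N)).2
    have e2 := hn2 (B i)
    rw [← hBs] at e2
    have e3 : cP ((Ioc (B i) (B (i + 1))).filter Nat.Prime) * N ≤ ε / (4 * (K + 1)) * N :=
      mul_le_mul_of_nonneg_right e2 hNpos.le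
    linarith
  have h3 := Finset.sum_le_sum h2
  rw [Finset.sum_add_distrib, Finset.sum_const, card_range, nsmul_eq_mul] at h3
  have h4 : (K : ℝ) * (ε / (4 * (K + 1)) * N) ≤ ε / 4 * N := by
    have e1 : (K : ℝ) * (ε / (4 * (K + 1)) * N) = (K / (K + 1)) * (ε / 4 * N) := by
      field_simp
    rw [e1]
    apply mul_le_of_le_one_left (by positivity)
    rw [div_le_one (by positivity)]
    linarith
  have h5 : (N : ℝ) / D < ε / 4 * N := by
    rw [div_lt_iff₀ hD0]
    have : 4 < D * ε := by rwa [div_lt_iff₀ hε] at hD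
    nlinarith
  have h6 : ∑ i ∈ range K, C i < ε / 4 * N := by
    rw [div_lt_iff₀ hε] at hNN
    linarith
  rw [Real.dist_eq, sub_zero, abs_of_nonneg (by positivity), div_lt_iff₀ hNpos]
  have : (0 : ℝ) < ε * N := by positivity
  linarith

/-- **Almost all integers satisfy the conjecture.**  The set of the positive integers `n` with
`a(n) = σ(n)` has natural density zero. -/
theorem result : Tendsto (fun N : ℕ =>
    (((Icc 1 N).filter (fun n => a n = sig n)).card : ℝ) / N) atTop (𝓝 0) := density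

end Pool.Agent.Results.MP_846857_nt.DensityZero
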