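import Mathlib
import Pool.Agent.H727.T1

set_option autoImplicit false

namespace Pool.Agent.H727.T

open ArithmeticFunction Finset

/-- `∑_{j < n} (j + 1) p ^ j` -/
def S (p n : ℕ) : ℕ := ∑ j ∈ range n, (j + 1) * p ^ j

/-- `∑_{j < n} p ^ j` -/
def G (p n : ℕ) : ℕ := ∑ j ∈ range n, p ^ j

theorem S_add (p n : ℕ) : S p (n + n) = (1 + p ^ n) * S p n + n * p ^ n * G p n := by
  have h : ∀ j, (n + j + 1) * p ^ (n + j) = p ^ n * ((j + 1) * p ^ j) + n * p ^ n * p ^ j := by
    intro j; rw [pow_add]; ring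
  have h2 : ∑ j ∈ range n, (n + j + 1) * p ^ (n + j) =
      p ^ n * ∑ j ∈ range n, (j + 1) * p ^ j + n * p ^ n * ∑ j ∈ range n, p ^ j := by
    rw [Finset.mul_sum, Finset.mul_sum, ← Finset.sum_add_distrib]
    exact Finset.sum_congr rfl fun j _ => h j
  unfold S G
  rw [Finset.sum_range_add, h2]
  ring

theorem S_step (p n : ℕ) : S p (n + 4) = S p n + (n + 1) * p ^ n + (n + 2) * p ^ (n + 1) +
    (n + 3) * p ^ (n + 2) + (n + 4) * p ^ (n + 3) := by
  unfold S
  rw [Finset.sum_range_succ, Finset.sum_range_succ, Finset.sum_range_succ,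
      Finset.sum_range_succ]

theorem S_odd_two {p h : ℕ} (hp : Odd p) (hh : Odd h) : Odd (S p (2 * h)) := by
  obtain ⟨q, rfl⟩ := hh
  induction q with
  | zero =>
    have : S p (2 * (2 * 0 + 1)) = 1 + 2 * p := by
      simp [S, Finset.sum_range_succ]
    rw [this]
    exact ⟨p, by ring⟩
  | succ q ih =>
    have e : 2 * (2 * (q + 1) + 1) = 2 * (2 * q + 1) + 4 := by ring
    rw [e, S_step]
    set n := 2 * (2 * q + 1) with hn
    obtain ⟨a, ha⟩ := hp.pow (n := n)
    obtain ⟨b, hb⟩ := hp.pow (n := n + 1)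
    obtain ⟨c, hc⟩ := hp.pow (n := n + 2)
    obtain ⟨d, hd⟩ := hp.pow (n := n + 3)
    obtain ⟨x, hx⟩ := ih
    rw [hx, ha, hb, hc, hd]
    have hn2 : n = 4 * q + 2 := by rw [hn]; ring
    rw [hn2]
    refine ⟨x + (4 * q + 3) * a + (2 * q + 2) * (2 * b + 1) + (4 * q + 5) * c + (4 * q + 4) +
      (2 * q + 3) * (2 * d + 1), ?_⟩
    ring

theorem G_even {p n : ℕ} (hp : Odd p) (hn : Even n) : 2 ∣ G p n := by
  have := two_pow_dvd_geom hp 1 n (by rw [pow_one]; exact hn.two_dvd)
  rwa [pow_one] at this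

/-- exact power of two in `S p (2 ^ (s+1) u)` -/
theorem S_even {p u : ℕ} (hp : Odd p) (hu : Odd u) (s : ℕ) :
    ∃ w, Odd w ∧ S p (2 ^ (s + 1) * u) = 2 ^ s * w := by
  induction s with
  | zero =>
    refine ⟨_, S_odd_two hp hu, by simp⟩
  | succ s ih =>
    obtain ⟨w, hw, e⟩ := ih
    have h1 : 2 ^ (s + 1 + 1) * u = 2 ^ (s + 1) * u + 2 ^ (s + 1) * u := by ring
    obtain ⟨g, hg⟩ := G_even (n := 2 ^ (s + 1) * u) hp
      ((even_two.pow_of_ne_zero (Nat.succ_ne_zero s)).mul_right u)
    have h2 : p ^ (2 ^ (s + 1) * u) % 4 = 1 := by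
      have : p ^ (2 ^ (s + 1) * u) = (p ^ 2) ^ (2 ^ s * u) := by
        rw [← pow_mul]; congr 1; ring
      rw [this]
      obtain ⟨q, rfl⟩ := hp
      have h3 : (2 * q + 1) ^ 2 % 4 = 1 := by
        have : (2 * q + 1) ^ 2 = 4 * (q ^ 2 + q) + 1 := by ring
        omega
      rw [Nat.pow_mod, h3, one_pow]; rfl
    obtain ⟨c, hc⟩ : ∃ c, p ^ (2 ^ (s + 1) * u) = 4 * c + 1 := ⟨_, by
      have := Nat.div_add_mod (p ^ (2 ^ (s + 1) * u)) 4
      rw [h2] at this
      exact this.symm⟩
    rw [h1, S_add, e, hg, hc]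
    refine ⟨(2 * c + 1) * w + 2 * (u * (4 * c + 1) * g), ?_, ?_⟩
    · apply Odd.add_even
      · exact Odd.mul ⟨c, rfl⟩ hw
      · exact even_two_mul _
    · ring

/-- `v_2(∑_{j ≤ e} (j+1) p^j) = v_2(⌊(e + 2) / 2⌋)` -/
theorem val_S {p : ℕ} (hp : Odd p) (e : ℕ) :
    (S p (e + 1)).factorization 2 = ((e + 2) / 2).factorization 2 := by
  have key : ∀ h, h ≠ 0 → ∃ w, Odd w ∧ S p (2 * h) = 2 ^ (h.factorization 2) * w := by
    intro h hh
    obtain ⟨s, u, hu, rfl⟩ := Nat.exists_eq_two_pow_mul_odd hh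
    have hu0 : u ≠ 0 := by rintro rfl; exact absurd hu (by decide)
    have e1 : (2 ^ s * u).factorization 2 = s := by
      rw [Nat.factorization_mul (pow_ne_zero _ two_ne_zero) hu0, Finsupp.add_apply,
        Nat.Prime.factorization_pow Nat.prime_two, Finsupp.single_eq_same,
        Nat.factorization_eq_zero_of_not_dvd (fun h => (Nat.not_even_iff_odd.2 hu)
          (even_iff_two_dvd.2 h)), add_zero]
    rw [e1]
    obtain ⟨w, hw, e⟩ := S_even hp hu s
    exact ⟨w, hw, by rw [← e]; congr 1; ring⟩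
  have fac : ∀ s w : ℕ, Odd w → (2 ^ s * w).factorization 2 = s := by
    intro s w hw
    have hw0 : w ≠ 0 := by rintro rfl; exact absurd hw (by decide)
    rw [Nat.factorization_mul (pow_ne_zero _ two_ne_zero) hw0, Finsupp.add_apply,
        Nat.Prime.factorization_pow Nat.prime_two, Finsupp.single_eq_same,
        Nat.factorization_eq_zero_of_not_dvd (fun h => (Nat.not_even_iff_odd.2 hw)
          (even_iff_two_dvd.2 h)), add_zero]
  rcases Nat.even_or_odd' e with ⟨g, rfl | rfl⟩
  · -- e = 2 g : `S (2g+1) = S (2(g+1)) - 2(g+1) p^(2g+1)`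
    have h1 : (2 * g + 2) / 2 = g + 1 := by omega
    rw [h1]
    obtain ⟨w, hw, e⟩ := key (g + 1) (Nat.succ_ne_zero g)
    set v := (g + 1).factorization 2 with hv
    have h2 : S p (2 * (g + 1)) = S p (2 * g + 1) + 2 * (g + 1) * p ^ (2 * g + 1) := by
      unfold S
      have : 2 * (g + 1) = (2 * g + 1) + 1 := by ring
      rw [this, Finset.sum_range_succ]
    obtain ⟨c, hc⟩ : 2 ^ v ∣ (g + 1) := Nat.ordProj_dvd (g + 1) 2
    have h3 : S p (2 * g + 1) + 2 ^ v * (2 * (c * p ^ (2 * g + 1))) = 2 ^ v * w := by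
      rw [← e, h2, hc]; ring
    have h4 : 2 ^ v ∣ S p (2 * g + 1) := by
      have : 2 ^ v ∣ S p (2 * g + 1) + 2 ^ v * (2 * (c * p ^ (2 * g + 1))) := by
        rw [h3]; exact dvd_mul_right _ _
      exact (Nat.dvd_add_left (dvd_mul_right _ _)).1 this
    obtain ⟨x, hx⟩ := h4
    rw [hx, ← mul_add] at h3
    have h5 : x + 2 * (c * p ^ (2 * g + 1)) = w := Nat.eq_of_mul_eq_mul_left (by positivity) h3
    rw [hx]
    apply fac
    rw [Nat.odd_iff] at hw ⊢
    omega
  · have h1 : (2 * g + 1 + 2) / 2 = g + 1 := by omega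
    rw [h1]
    obtain ⟨w, hw, e⟩ := key (g + 1) (Nat.succ_ne_zero g)
    have h2 : 2 * g + 1 + 1 = 2 * (g + 1) := by ring
    rw [h2, e]
    exact fac _ _ hw

/-- `v_2` of a geometric sum -/
theorem val_G_even {p : ℕ} (hp : Odd p) {e : ℕ} (he : Even e) : (G p (e + 1)).factorization 2 = 0 := by
  apply Nat.factorization_eq_zero_of_not_dvd
  obtain ⟨h, rfl⟩ := he
  unfold G
  rw [Finset.sum_range_succ]
  intro hd
  have h1 := two_pow_dvd_geom hp 1 (h + h) (by rw [pow_one]; exact ⟨h, by ring⟩)
  rw [pow_one] at h1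
  have h2 := (Nat.dvd_add_right h1).1 hd
  exact (Nat.not_even_iff_odd.2 (hp.pow)) (even_iff_two_dvd.2 h2)

theorem val_G_odd {p : ℕ} (hp : Odd p) (hp1 : 1 < p) {e : ℕ} (he : Odd e) :
    (G p (e + 1)).factorization 2 + 1 = (e + 1).factorization 2 + padicValNat 2 (p + 1) := by
  have h0 : ¬ 2 ∣ p := fun h => (Nat.not_even_iff_odd.2 hp) (even_iff_two_dvd.2 h)
  have h1 : padicValNat 2 (p ^ (e + 1) - 1) + 1 = padicValNat 2 (p + 1) + padicValNat 2 (p - 1) +
      padicValNat 2 (e + 1) :=
    padicValNat.pow_two_sub_one hp1 h0 (Nat.succ_ne_zero e) he.add_one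
  have h2 : p ^ (e + 1) - 1 = (p - 1) * G p (e + 1) := by
    have h3 : G p (e + 1) * (p - 1) + 1 = p ^ (e + 1) := by
      have h4 : ∀ n, G p n * (p - 1) + 1 = p ^ n := by
        intro n
        induction n with
        | zero => simp [G]
        | succ n ih =>
          unfold G at ih ⊢
          rw [Finset.sum_range_succ, add_mul, pow_succ]
          obtain ⟨r, rfl⟩ : ∃ r, p = r + 1 := ⟨p - 1, by omega⟩
          rw [Nat.add_sub_cancel] at ih ⊢
          linarith [ih, mul_add ((r + 1) ^ n) r 1]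
      exact h4 _
    rw [← h3, Nat.add_sub_cancel, mul_comm]
  have hG0 : G p (e + 1) ≠ 0 := by
    unfold G
    rw [Finset.sum_range_succ]
    positivity
  have hp1' : p - 1 ≠ 0 := by omega
  rw [h2, padicValNat.mul hp1' hG0] at h1
  have h5 : ∀ n, n.factorization 2 = padicValNat 2 n :=
    fun n => Nat.factorization_def n Nat.prime_two
  rw [h5, h5]
  omega

theorem FA_prime_pow {p : ℕ} (hp : p.Prime) (e : ℕ) : FA (p ^ e) = S p (e + 1) := by
  rw [FA_apply, Nat.sum_divisors_prime_pow hp]
  unfold S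
  refine Finset.sum_congr rfl fun j _ => ?_
  rw [Nat.divisors_prime_pow hp, Finset.card_map, Finset.card_range]
  ring

theorem sigma_prime_pow' {p : ℕ} (hp : p.Prime) (e : ℕ) :
    sigma 1 (p ^ e) = G p (e + 1) := by
  rw [sigma_one_apply, Nat.sum_divisors_prime_pow hp]
  rfl

theorem S_ne_zero {p : ℕ} (hp : 0 < p) (e : ℕ) : S p (e + 1) ≠ 0 := by
  unfold S
  rw [Finset.sum_range_succ]
  positivity

theorem G_ne_zero {p : ℕ} (hp : 0 < p) (e : ℕ) : G p (e + 1) ≠ 0 := by
  unfold G
  rw [Finset.sum_range_succ]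
  positivity

theorem odd_of_mem {m p : ℕ} (hm : Odd m) (hp : p ∈ m.primeFactors) : Odd p :=
  Odd.of_dvd_nat hm (Nat.dvd_of_mem_primeFactors hp)

theorem FA_prod {m : ℕ} (hm0 : m ≠ 0) :
    FA m = ∏ p ∈ m.primeFactors, S p (m.factorization p + 1) := by
  have : FA m = ∏ p ∈ m.primeFactors, FA (p ^ m.factorization p) := by
    rw [FA_mult.multiplicative_factorization FA hm0]
    rfl
  rw [this]
  exact Finset.prod_congr rfl fun p hp => FA_prime_pow (Nat.prime_of_mem_primeFactors hp) _

theorem sigma_prod {m : ℕ} (hm0 : m ≠ 0) :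
    sigma 1 m = ∏ p ∈ m.primeFactors, G p (m.factorization p + 1) := by
  have : sigma 1 m = ∏ p ∈ m.primeFactors, sigma 1 (p ^ m.factorization p) := by
    rw [isMultiplicative_sigma.multiplicative_factorization (sigma 1) hm0]
    rfl
  rw [this]
  exact Finset.prod_congr rfl fun p hp => sigma_prime_pow' (Nat.prime_of_mem_primeFactors hp) _

theorem val_FA {m : ℕ} (hm : Odd m) : (FA m).factorization 2 =
    ∑ p ∈ m.primeFactors, ((m.factorization p + 2) / 2).factorization 2 := by
  have hm0 : m ≠ 0 := by rintro rfl; exact absurd hm (by decide)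
  rw [FA_prod hm0, Nat.factorization_prod_apply]
  · exact Finset.sum_congr rfl fun p hp => val_S (odd_of_mem hm hp) _
  · intro p hp
    exact S_ne_zero (Nat.prime_of_mem_primeFactors hp).pos _

theorem val_card {m : ℕ} (hm0 : m ≠ 0) : (m.divisors.card).factorization 2 =
    ∑ p ∈ m.primeFactors, (m.factorization p + 1).factorization 2 := by
  rw [Nat.card_divisors hm0, Nat.factorization_prod_apply]
  intro p _
  exact Nat.succ_ne_zero _

theorem val_sigma {m : ℕ} (hm : Odd m) : (sigma 1 m).factorization 2 =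
    ∑ p ∈ m.primeFactors, (G p (m.factorization p + 1)).factorization 2 := by
  have hm0 : m ≠ 0 := by rintro rfl; exact absurd hm (by decide)
  rw [sigma_prod hm0, Nat.factorization_prod_apply]
  intro p hp
  exact G_ne_zero (Nat.prime_of_mem_primeFactors hp).pos _

theorem even_fac {e : ℕ} (he : Even e) : (e + 1).factorization 2 = 0 := by
  apply Nat.factorization_eq_zero_of_not_dvd
  intro h
  exact (Nat.not_even_iff_odd.2 he.add_one) (even_iff_two_dvd.2 h)

theorem odd_fac {e : ℕ} (he : Odd e) :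
    (e + 1).factorization 2 = ((e + 2) / 2).factorization 2 + 1 := by
  obtain ⟨g, rfl⟩ := he
  have h1 : (2 * g + 1 + 2) / 2 = g + 1 := by omega
  have h2 : 2 * g + 1 + 1 = 2 * (g + 1) := by ring
  rw [h1, h2, Nat.factorization_mul two_ne_zero (Nat.succ_ne_zero g), Finsupp.add_apply,
    Nat.prime_two.factorization_self, add_comm]

/-- number of the primes dividing `m` to an odd power -/
def oo (m : ℕ) : ℕ := (m.primeFactors.filter (fun p => Odd (m.factorization p))).card

/-- `∑ v_2(e/2 + 1)` over the even exponents `e` -/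
def ss (m : ℕ) : ℕ := ∑ p ∈ m.primeFactors.filter (fun p => Even (m.factorization p)),
  padicValNat 2 (m.factorization p / 2 + 1)

/-- `∑ (v_2(p + 1) - 1)` over the primes with odd exponent -/
def rr (m : ℕ) : ℕ := ∑ p ∈ m.primeFactors.filter (fun p => Odd (m.factorization p)),
  (padicValNat 2 (p + 1) - 1)

theorem filter_even_eq (m : ℕ) : m.primeFactors.filter (fun p => ¬ Odd (m.factorization p)) =
    m.primeFactors.filter (fun p => Even (m.factorization p)) := by
  apply Finset.filter_congr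
  intro p _
  exact Nat.not_odd_iff_even

theorem FA_card {m : ℕ} (hm : Odd m) :
    (FA m).factorization 2 + oo m = (m.divisors.card).factorization 2 + ss m := by
  have hm0 : m ≠ 0 := by rintro rfl; exact absurd hm (by decide)
  rw [val_FA hm, val_card hm0]
  rw [← Finset.sum_filter_add_sum_filter_not m.primeFactors (fun p => Odd (m.factorization p))
    (fun p => ((m.factorization p + 2) / 2).factorization 2)]
  rw [← Finset.sum_filter_add_sum_filter_not m.primeFactors (fun p => Odd (m.factorization p))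
    (fun p => (m.factorization p + 1).factorization 2)]
  rw [filter_even_eq]
  have h1 : ∑ p ∈ m.primeFactors.filter (fun p => Odd (m.factorization p)),
      (m.factorization p + 1).factorization 2 =
      ∑ p ∈ m.primeFactors.filter (fun p => Odd (m.factorization p)),
      ((m.factorization p + 2) / 2).factorization 2 + oo m := by
    unfold oo
    rw [Finset.card_eq_sum_ones, ← Finset.sum_add_distrib]
    refine Finset.sum_congr rfl fun p hp => ?_
    exact odd_fac (mem_filter.1 hp).2
  have h2 : ∑ p ∈ m.primeFactors.filter (fun p => Even (m.factorization p)),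
      (m.factorization p + 1).factorization 2 = 0 := by
    apply Finset.sum_eq_zero
    intro p hp
    exact even_fac (mem_filter.1 hp).2
  have h3 : ∑ p ∈ m.primeFactors.filter (fun p => Even (m.factorization p)),
      ((m.factorization p + 2) / 2).factorization 2 = ss m := by
    unfold ss
    refine Finset.sum_congr rfl fun p hp => ?_
    have : (m.factorization p + 2) / 2 = m.factorization p / 2 + 1 := by omega
    rw [this, Nat.factorization_def _ Nat.prime_two]
  rw [h1, h2, h3]
  ring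

theorem sigma_card {m : ℕ} (hm : Odd m) :
    (sigma 1 m).factorization 2 = (m.divisors.card).factorization 2 + rr m := by
  have hm0 : m ≠ 0 := by rintro rfl; exact absurd hm (by decide)
  rw [val_sigma hm, val_card hm0]
  rw [← Finset.sum_filter_add_sum_filter_not m.primeFactors (fun p => Odd (m.factorization p))
    (fun p => (G p (m.factorization p + 1)).factorization 2)]
  rw [← Finset.sum_filter_add_sum_filter_not m.primeFactors (fun p => Odd (m.factorization p))
    (fun p => (m.factorization p + 1).factorization 2)]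
  rw [filter_even_eq]
  have h2 : ∑ p ∈ m.primeFactors.filter (fun p => Even (m.factorization p)),
      (m.factorization p + 1).factorization 2 = 0 := by
    apply Finset.sum_eq_zero
    intro p hp
    exact even_fac (mem_filter.1 hp).2
  have h3 : ∑ p ∈ m.primeFactors.filter (fun p => Even (m.factorization p)),
      (G p (m.factorization p + 1)).factorization 2 = 0 := by
    apply Finset.sum_eq_zero
    intro p hp
    rw [mem_filter] at hp
    exact val_G_even (odd_of_mem hm hp.1) hp.2
  rw [h2, h3, add_zero, add_zero]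
  unfold rr
  rw [← Finset.sum_add_distrib]
  refine Finset.sum_congr rfl fun p hp => ?_
  rw [mem_filter] at hp
  have hpo := odd_of_mem hm hp.1
  have h4 := val_G_odd hpo (Nat.prime_of_mem_primeFactors hp.1).one_lt hp.2
  have h5 : 1 ≤ padicValNat 2 (p + 1) :=
    one_le_padicValNat_of_dvd (Nat.succ_ne_zero p) hpo.add_one.two_dvd
  omega

end Pool.Agent.H727.T
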