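import Mathlib
import Pool.Agent.H727.T1

set_option autoImplicit false

namespace Pool.Agent.H727.T

open ArithmeticFunction Finset

/-- a prime dividing a solution exactly once is determined by the cofactor -/
theorem det {m p : ℕ} (hp : p.Prime) (hm0 : m ≠ 0) (hpm : ¬ p ∣ m)
    (h : a (m * p) = ∑ d ∈ (m * p).divisors, (d : ℤ)) :
    (p : ℤ) * (4 * (m * m.divisors.card) - 2 * (FA m : ℤ) - sigma 1 m) =
      (FA m : ℤ) + sigma 1 m := by
  have hcop : Nat.Coprime m p := ((hp.coprime_iff_not_dvd).2 hpm).symm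
  have hn0 : m * p ≠ 0 := mul_ne_zero hm0 hp.ne_zero
  rw [a_eq hn0] at h
  have e1 : (∑ d ∈ (m * p).divisors, (d : ℤ)) = (sigma 1 (m * p) : ℤ) := by
    rw [sigma_one_apply]; push_cast; rfl
  have e2 : FA p = 1 + 2 * p := by
    rw [FA_apply, hp.sum_divisors, hp.divisors, Nat.divisors_one, Finset.card_pair hp.one_lt.ne]
    simp
    ring
  have e3 : sigma 1 p = 1 + p := by
    rw [sigma_one_apply, hp.sum_divisors]
    ring
  have e4 : p.divisors.card = 2 := by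
    rw [hp.divisors, Finset.card_pair hp.one_lt.ne]
  rw [e1, FA_mult.map_mul_of_coprime hcop, isMultiplicative_sigma.map_mul_of_coprime hcop,
    hcop.card_divisors_mul, e2, e3, e4] at h
  push_cast at h
  linear_combination h

theorem det_unique {m p q : ℕ} (hp : p.Prime) (hq : q.Prime) (hm0 : m ≠ 0) (hpm : ¬ p ∣ m)
    (hqm : ¬ q ∣ m) (h : a (m * p) = ∑ d ∈ (m * p).divisors, (d : ℤ))
    (h' : a (m * q) = ∑ d ∈ (m * q).divisors, (d : ℤ)) : p = q := by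
  have e1 := det hp hm0 hpm h
  have e2 := det hq hm0 hqm h'
  set X : ℤ := 4 * (m * m.divisors.card) - 2 * (FA m : ℤ) - sigma 1 m with hX
  have hs : 0 < sigma 1 m := by
    rw [sigma_one_apply]
    exact Finset.sum_pos' (fun _ _ => Nat.zero_le _) ⟨m, Nat.mem_divisors_self m hm0,
      Nat.pos_of_ne_zero hm0⟩
  have hX0 : X ≠ 0 := by
    rintro h0
    rw [h0, mul_zero] at e1
    have : (0 : ℤ) < sigma 1 m := by exact_mod_cast hs
    have : (0 : ℤ) ≤ FA m := by positivity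
    linarith
  have e3 : (p : ℤ) = q := mul_right_cancel₀ hX0 (e1.trans e2.symm)
  exact_mod_cast e3

/-- `n ↦ n ^ (-σ)` -/
noncomputable def fpow (σ : ℝ) : ℕ →* ℝ where
  toFun n := (n : ℝ) ^ (-σ)
  map_one' := by simp
  map_mul' x y := by
    push_cast
    exact Real.mul_rpow (Nat.cast_nonneg x) (Nat.cast_nonneg y)

/-- Rankin's bound -/
theorem smooth_bound (Y N : ℕ) {σ : ℝ} (h0 : 0 < σ) :
    (((Icc 1 N).filter (fun n => n ∈ Nat.smoothNumbers Y)).card : ℝ) ≤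
      (N : ℝ) ^ σ * ∏ p ∈ Y.primesBelow, (1 - (p : ℝ) ^ (-σ))⁻¹ := by
  have hlt : ∀ {p : ℕ}, p.Prime → ‖fpow σ p‖ < 1 := by
    intro p hp
    have h1 : (1 : ℝ) < p := by exact_mod_cast hp.one_lt
    have h2 : fpow σ p = (p : ℝ) ^ (-σ) := rfl
    rw [h2, Real.norm_of_nonneg (Real.rpow_nonneg (by linarith) _)]
    exact Real.rpow_lt_one_of_one_lt_of_neg h1 (by linarith)
  have hs := (EulerProduct.summable_and_hasSum_smoothNumbers_prod_primesBelow_geometric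
    (f := fpow σ) hlt Y).2
  have h1 : ∑ n ∈ (Icc 1 N).filter (fun n => n ∈ Nat.smoothNumbers Y), (n : ℝ) ^ (-σ) ≤
      ∏ p ∈ Y.primesBelow, (1 - (p : ℝ) ^ (-σ))⁻¹ := by
    rw [← Finset.sum_subtype_eq_sum_filter]
    exact sum_le_hasSum _ (fun i _ => Real.rpow_nonneg (Nat.cast_nonneg _) _) hs
  calc (((Icc 1 N).filter (fun n => n ∈ Nat.smoothNumbers Y)).card : ℝ)
      = ∑ n ∈ (Icc 1 N).filter (fun n => n ∈ Nat.smoothNumbers Y), (1 : ℝ) := by simp
    _ ≤ ∑ n ∈ (Icc 1 N).filter (fun n => n ∈ Nat.smoothNumbers Y), (N : ℝ) ^ σ * (n : ℝ) ^ (-σ) := by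
        apply Finset.sum_le_sum
        intro n hn
        rw [mem_filter, mem_Icc] at hn
        have hn0 : (0 : ℝ) < n := by exact_mod_cast hn.1.1
        have hnN : (n : ℝ) ≤ N := by exact_mod_cast hn.1.2
        rw [Real.rpow_neg hn0.le]
        rw [← div_eq_mul_inv, le_div_iff₀ (Real.rpow_pos_of_pos hn0 _), one_mul]
        exact Real.rpow_le_rpow hn0.le hnN h0.le
    _ = (N : ℝ) ^ σ * ∑ n ∈ (Icc 1 N).filter (fun n => n ∈ Nat.smoothNumbers Y), (n : ℝ) ^ (-σ) := by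
        rw [Finset.mul_sum]
    _ ≤ _ := mul_le_mul_of_nonneg_left h1 (Real.rpow_nonneg (Nat.cast_nonneg _) _)

/-- the Euler product for `σ = 1 - 1/log y` -/
theorem prod_bound {y : ℝ} (hy1 : 1 < y) (hy : 2 ≤ Real.log y) :
    ∏ p ∈ (⌊y⌋₊ + 1).primesBelow, (1 - (p : ℝ) ^ (-(1 - 1 / Real.log y)))⁻¹ ≤
      Real.exp (11 * Real.log y) := by
  have hlog : 0 < Real.log y := by linarith
  have hterm : ∀ p ∈ (⌊y⌋₊ + 1).primesBelow, (1 - (p : ℝ) ^ (-(1 - 1 / Real.log y)))⁻¹ ≤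
      Real.exp (11 * (p : ℝ)⁻¹) := by
    intro p hp
    rw [Nat.mem_primesBelow] at hp
    obtain ⟨hpy, hpp⟩ := hp
    have hpy' : (p : ℝ) ≤ y := by
      have : p ≤ ⌊y⌋₊ := by omega
      exact (Nat.cast_le.2 this).trans (Nat.floor_le (by linarith))
    have hp2 : (2 : ℝ) ≤ p := by exact_mod_cast hpp.two_le
    have hp0 : (0 : ℝ) < p := by linarith
    set t := (p : ℝ) ^ (-(1 - 1 / Real.log y)) with ht
    have ht0 : 0 < t := Real.rpow_pos_of_pos hp0 _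
    have ht1 : t ≤ 3 / 4 := by
      have h1 : t ≤ (p : ℝ) ^ (-(1 / 2) : ℝ) := by
        apply Real.rpow_le_rpow_of_exponent_le (by linarith)
        have : 1 / Real.log y ≤ 1 / 2 := one_div_le_one_div_of_le two_pos hy
        linarith
      have h2 : (p : ℝ) ^ (-(1 / 2) : ℝ) ≤ (2 : ℝ) ^ (-(1 / 2) : ℝ) :=
        Real.rpow_le_rpow_of_nonpos two_pos hp2 (by norm_num)
      have h3 : (2 : ℝ) ^ (-(1 / 2) : ℝ) ≤ 3 / 4 := by
        rw [Real.rpow_neg two_pos.le, ← Real.sqrt_eq_rpow]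
        rw [inv_le_comm₀ (Real.sqrt_pos.2 two_pos) (by norm_num)]
        apply Real.le_sqrt_of_sq_le
        norm_num
      exact h1.trans (h2.trans h3)
    have ht2 : t ≤ 2.7182818286 * (p : ℝ)⁻¹ := by
      have h1 : t = (p : ℝ) ^ (1 / Real.log y) * (p : ℝ)⁻¹ := by
        rw [ht, neg_sub, Real.rpow_sub hp0, Real.rpow_one, div_eq_mul_inv]
      rw [h1]
      apply mul_le_mul_of_nonneg_right _ (inv_nonneg.2 hp0.le)
      have h2 : (p : ℝ) ^ (1 / Real.log y) ≤ y ^ (1 / Real.log y) :=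
        Real.rpow_le_rpow hp0.le hpy' (by positivity)
      have h3 : y ^ (1 / Real.log y) = Real.exp 1 := by
        rw [Real.rpow_def_of_pos (by linarith)]
        congr 1
        field_simp
      rw [h3] at h2
      exact h2.trans Real.exp_one_lt_d9.le
    have h4 : (1 - t)⁻¹ ≤ 1 + 4 * t := by
      rw [inv_le_comm₀ (by linarith) (by linarith)]
      rw [inv_eq_one_div, div_le_iff₀ (by linarith)]
      nlinarith
    have h5 : 1 + 4 * t ≤ Real.exp (4 * t) := by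
      have := Real.add_one_le_exp (4 * t)
      linarith
    have h6 : 4 * t ≤ 11 * (p : ℝ)⁻¹ := by
      have : 0 < (p : ℝ)⁻¹ := inv_pos.2 hp0
      nlinarith
    exact h4.trans (h5.trans (Real.exp_le_exp.2 h6))
  have hprod : ∏ p ∈ (⌊y⌋₊ + 1).primesBelow, (1 - (p : ℝ) ^ (-(1 - 1 / Real.log y)))⁻¹ ≤
      ∏ p ∈ (⌊y⌋₊ + 1).primesBelow, Real.exp (11 * (p : ℝ)⁻¹) := by
    apply Finset.prod_le_prod
    · intro p hp
      rw [Nat.mem_primesBelow] at hp
      have hp1 : (1 : ℝ) < p := by exact_mod_cast hp.2.one_lt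
      have : (p : ℝ) ^ (-(1 - 1 / Real.log y)) ≤ 1 := by
        apply Real.rpow_le_one_of_one_le_of_nonpos hp1.le
        have : 1 / Real.log y ≤ 1 / 2 := one_div_le_one_div_of_le two_pos hy
        linarith
      exact inv_nonneg.2 (by linarith)
    · exact hterm
  refine hprod.trans ?_
  rw [← Real.exp_sum, ← Finset.mul_sum]
  apply Real.exp_le_exp.2
  apply mul_le_mul_of_nonneg_left _ (by norm_num)
  have hsub : (⌊y⌋₊ + 1).primesBelow ⊆ (Icc 1 ⌊y⌋₊).erase 1 := by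
    intro p hp
    rw [Nat.mem_primesBelow] at hp
    rw [mem_erase, mem_Icc]
    exact ⟨hp.2.one_lt.ne', hp.2.one_lt.le, by omega⟩
  have h7 : ∑ p ∈ (⌊y⌋₊ + 1).primesBelow, (p : ℝ)⁻¹ ≤ ∑ p ∈ (Icc 1 ⌊y⌋₊).erase 1, (p : ℝ)⁻¹ :=
    Finset.sum_le_sum_of_subset_of_nonneg hsub (fun i _ _ => inv_nonneg.2 (Nat.cast_nonneg _))
  have h8 : ∑ p ∈ (Icc 1 ⌊y⌋₊).erase 1, (p : ℝ)⁻¹ + 1 = ∑ p ∈ Icc 1 ⌊y⌋₊, (p : ℝ)⁻¹ := by
    have := Finset.sum_erase_add (Icc 1 ⌊y⌋₊) (fun p : ℕ => (p : ℝ)⁻¹)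
      (mem_Icc.2 ⟨le_rfl, Nat.floor_pos.2 hy1.le⟩ : (1 : ℕ) ∈ Icc 1 ⌊y⌋₊)
    simpa using this
  have h9 := harmonic_floor_le_one_add_log y hy1.le
  rw [harmonic_eq_sum_Icc] at h9
  push_cast at h9
  linarith

end Pool.Agent.H727.T
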