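import Mathlib
import Pool.Agent.H727.T3

set_option autoImplicit false

namespace Pool.Agent.H727.T

open ArithmeticFunction Finset

/-! ### inequalities for products -/

theorem L_up (s : Finset ℕ) (x u : ℕ → ℝ) (hx : ∀ p ∈ s, 0 ≤ x p) (hu0 : ∀ p ∈ s, 0 ≤ u p)
    (hu1 : ∀ p ∈ s, u p ≤ 1) :
    (∏ p ∈ s, (1 + x p * (1 - u p)) ≤ ∏ p ∈ s, (1 + x p)) ∧
    (0 ≤ ∏ p ∈ s, u p) ∧ (∏ p ∈ s, u p ≤ 1) ∧
    ∏ p ∈ s, (1 + x p * (1 - u p)) ≤
      ∏ p ∈ s, u p + (1 - ∏ p ∈ s, u p) * ∏ p ∈ s, (1 + x p) := by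
  classical
  induction s using Finset.induction_on with
  | empty => simp
  | insert a s ha ih =>
    obtain ⟨i1, i2, i3, i4⟩ := ih (fun p hp => hx p (mem_insert_of_mem hp))
      (fun p hp => hu0 p (mem_insert_of_mem hp)) (fun p hp => hu1 p (mem_insert_of_mem hp))
    have h1 := hx a (mem_insert_self _ _)
    have h2 := hu0 a (mem_insert_self _ _)
    have h3 := hu1 a (mem_insert_self _ _)
    rw [prod_insert ha, prod_insert ha, prod_insert ha]
    set G := ∏ p ∈ s, (1 + x p * (1 - u p))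
    set M := ∏ p ∈ s, (1 + x p)
    set H := ∏ p ∈ s, u p
    have hG0 : 0 ≤ G := Finset.prod_nonneg fun p hp => by
      have := hx p (mem_insert_of_mem hp)
      have := hu1 p (mem_insert_of_mem hp)
      have : 0 ≤ x p * (1 - u p) := mul_nonneg ‹_› (by linarith)
      linarith
    have hM0 : 0 ≤ M := hG0.trans i1
    have ht : x a * (1 - u a) ≤ x a := by nlinarith
    have ht0 : 0 ≤ x a * (1 - u a) := mul_nonneg h1 (by linarith)
    refine ⟨?_, mul_nonneg h2 i2, mul_le_one₀ h3 i2 i3, ?_⟩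
    · exact mul_le_mul (by linarith) i1 hG0 (by linarith)
    · have e1 : (1 + x a * (1 - u a)) * G = u a * G + (1 - u a) * (1 + x a) * G := by ring
      rw [e1]
      have e2 : u a * G ≤ u a * (H + (1 - H) * M) := mul_le_mul_of_nonneg_left i4 h2
      have e3 : (1 - u a) * (1 + x a) * G ≤ (1 - u a) * (1 + x a) * M :=
        mul_le_mul_of_nonneg_left i1 (mul_nonneg (by linarith) (by linarith))
      have e4 : 0 ≤ u a * ((1 - H) * M) * x a :=
        mul_nonneg (mul_nonneg h2 (mul_nonneg (by linarith) hM0)) h1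
      nlinarith

theorem L_low (s : Finset ℕ) (x u : ℕ → ℝ) (x0 : ℝ) (h0 : 0 ≤ x0) (hx : ∀ p ∈ s, x0 ≤ x p)
    (hu0 : ∀ p ∈ s, 0 ≤ u p) (hu1 : ∀ p ∈ s, u p ≤ 1) :
    1 + x0 * (1 - ∏ p ∈ s, u p) ≤ ∏ p ∈ s, (1 + x p * (1 - u p)) := by
  classical
  induction s using Finset.induction_on with
  | empty => simp
  | insert a s ha ih =>
    have i1 := ih (fun p hp => hx p (mem_insert_of_mem hp))
      (fun p hp => hu0 p (mem_insert_of_mem hp)) (fun p hp => hu1 p (mem_insert_of_mem hp))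
    have h1 := hx a (mem_insert_self _ _)
    have h2 := hu0 a (mem_insert_self _ _)
    have h3 := hu1 a (mem_insert_self _ _)
    have hH0 : 0 ≤ ∏ p ∈ s, u p :=
      Finset.prod_nonneg fun p hp => hu0 p (mem_insert_of_mem hp)
    have hH1 : ∏ p ∈ s, u p ≤ 1 :=
      Finset.prod_le_one (fun p hp => hu0 p (mem_insert_of_mem hp))
        (fun p hp => hu1 p (mem_insert_of_mem hp))
    rw [prod_insert ha, prod_insert ha]
    set G := ∏ p ∈ s, (1 + x p * (1 - u p))
    set H := ∏ p ∈ s, u p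
    have e1 : x0 * (1 - u a) ≤ x a * (1 - u a) := mul_le_mul_of_nonneg_right h1 (by linarith)
    have e2 : (1 + x0 * (1 - u a)) * (1 + x0 * (1 - H)) ≤ (1 + x a * (1 - u a)) * G := by
      apply mul_le_mul (by linarith) i1
      · have : 0 ≤ x0 * (1 - H) := mul_nonneg h0 (by linarith)
        linarith
      · have : 0 ≤ x a * (1 - u a) := mul_nonneg (by linarith) (by linarith)
        linarith
    have e3 : 0 ≤ (x0 * (1 - u a)) * (x0 * (1 - H)) :=
      mul_nonneg (mul_nonneg h0 (by linarith)) (mul_nonneg h0 (by linarith))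
    have e4 : 0 ≤ x0 * ((1 - u a) * (1 - H)) :=
      mul_nonneg h0 (mul_nonneg (by linarith) (by linarith))
    nlinarith

theorem L_sum (s : Finset ℕ) (y : ℕ → ℝ) (hy : ∀ p ∈ s, 0 ≤ y p) :
    1 + ∑ p ∈ s, y p ≤ ∏ p ∈ s, (1 + y p) := by
  classical
  induction s using Finset.induction_on with
  | empty => simp
  | insert a s ha ih =>
    have i1 := ih (fun p hp => hy p (mem_insert_of_mem hp))
    have h1 := hy a (mem_insert_self _ _)
    have h2 : 0 ≤ ∑ p ∈ s, y p := Finset.sum_nonneg fun p hp => hy p (mem_insert_of_mem hp)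
    rw [prod_insert ha, sum_insert ha]
    have h3 : (1 + y a) * (1 + ∑ p ∈ s, y p) ≤ (1 + y a) * ∏ p ∈ s, (1 + y p) :=
      mul_le_mul_of_nonneg_left i1 (by linarith)
    nlinarith [mul_nonneg h1 h2]

/-! ### prime powers -/

theorem tele (p n : ℕ) : (S p n : ℝ) * ((p : ℝ) - 1) + G p n = n * (p : ℝ) ^ n := by
  induction n with
  | zero => simp [S, G]
  | succ n ih =>
    unfold S G at ih ⊢
    rw [Finset.sum_range_succ, Finset.sum_range_succ]
    push_cast at ih ⊢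
    rw [pow_succ]
    linear_combination ih

/-- `σ(p^e) / ((e+1) p^e)` -/
noncomputable def uu (p e : ℕ) : ℝ := (G p (e + 1) : ℝ) / ((e + 1) * (p : ℝ) ^ e)

/-- `F(p^e) / ((e+1) p^e)` -/
noncomputable def gg (p e : ℕ) : ℝ := (S p (e + 1) : ℝ) / ((e + 1) * (p : ℝ) ^ e)

theorem gg_eq {p : ℕ} (hp : 1 < p) (e : ℕ) : gg p e = 1 + 1 / ((p : ℝ) - 1) * (1 - uu p e) := by
  have hp' : (1 : ℝ) < p := by exact_mod_cast hp
  have h1 : (p : ℝ) - 1 ≠ 0 := by linarith
  have h2 : ((e : ℝ) + 1) * (p : ℝ) ^ e ≠ 0 := by positivity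
  have h3 := tele p (e + 1)
  unfold gg uu
  rw [div_eq_iff h2]
  have h4 : (1 + 1 / ((p : ℝ) - 1) * (1 - (G p (e + 1) : ℝ) / (((e : ℝ) + 1) * (p : ℝ) ^ e))) *
      (((e : ℝ) + 1) * (p : ℝ) ^ e) * ((p : ℝ) - 1) =
      ((e : ℝ) + 1) * (p : ℝ) ^ e * ((p : ℝ) - 1) + ((e : ℝ) + 1) * (p : ℝ) ^ e -
        (G p (e + 1) : ℝ) := by
    field_simp
    ring
  apply mul_right_cancel₀ h1
  rw [h4]
  push_cast at h3
  rw [pow_succ] at h3
  linear_combination h3

theorem uu_pos {p : ℕ} (hp : 1 < p) (e : ℕ) : 0 < uu p e := by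
  unfold uu
  have h1 : 0 < G p (e + 1) := Nat.pos_of_ne_zero (G_ne_zero (by omega) e)
  have hp' : (0 : ℝ) < p := by exact_mod_cast (by omega : 0 < p)
  positivity

theorem G_le (p e : ℕ) (hp : 1 < p) : G p (e + 1 + 1) ≤ p ^ (e + 1) + (e + 1) * p ^ e := by
  unfold G
  rw [Finset.sum_range_succ, add_comm]
  apply Nat.add_le_add_left
  calc ∑ j ∈ range (e + 1), p ^ j ≤ ∑ _j ∈ range (e + 1), p ^ e := by
        apply Finset.sum_le_sum
        intro j hj
        exact Nat.pow_le_pow_right (by omega) (by have := mem_range.1 hj; omega)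
    _ = (e + 1) * p ^ e := by rw [sum_const, card_range, smul_eq_mul]

/-- `u ≤ (1 + 1/p) / 2` -/
theorem uu_le {p e : ℕ} (hp : 1 < p) (he : 1 ≤ e) : uu p e ≤ (1 + 1 / (p : ℝ)) / 2 := by
  obtain ⟨f, rfl⟩ : ∃ f, e = f + 1 := ⟨e - 1, by omega⟩
  have hp' : (1 : ℝ) < p := by exact_mod_cast hp
  have h1 : (G p (f + 1 + 1) : ℝ) ≤ (p : ℝ) ^ (f + 1) + (f + 1) * (p : ℝ) ^ f := by
    exact_mod_cast G_le p f hp
  unfold uu
  push_cast
  rw [div_le_iff₀ (by positivity)]
  refine h1.trans ?_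
  have h2 : (1 + 1 / (p : ℝ)) / 2 * (((f : ℝ) + 1 + 1) * (p : ℝ) ^ (f + 1)) =
      ((p : ℝ) + 1) * ((f : ℝ) + 2) * (p : ℝ) ^ f / 2 := by
    rw [pow_succ]
    field_simp
    ring
  rw [h2, pow_succ]
  have h3 : 0 ≤ (p : ℝ) ^ f * ((f : ℝ) * ((p : ℝ) - 1)) := by
    have : 0 ≤ (p : ℝ) - 1 := by linarith
    positivity
  nlinarith

theorem prod_eq {m : ℕ} (hm0 : m ≠ 0) :
    (m : ℝ) * m.divisors.card =
      ∏ p ∈ m.primeFactors, (((m.factorization p : ℝ) + 1) * (p : ℝ) ^ m.factorization p) := by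
  rw [Finset.prod_mul_distrib, mul_comm]
  congr 1
  · rw [Nat.card_divisors hm0]
    push_cast
    rfl
  · have := Nat.prod_factorization_pow_eq_self hm0
    have h2 : ∏ p ∈ m.primeFactors, p ^ m.factorization p = m := this
    exact_mod_cast h2.symm

theorem G_real {m : ℕ} (hm0 : m ≠ 0) :
    (FA m : ℝ) = (m * m.divisors.card) * ∏ p ∈ m.primeFactors, gg p (m.factorization p) := by
  rw [prod_eq hm0, ← Finset.prod_mul_distrib, FA_prod hm0]
  push_cast
  refine Finset.prod_congr rfl fun p hp => ?_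
  have hp' : (0 : ℝ) < p := by exact_mod_cast (Nat.prime_of_mem_primeFactors hp).pos
  unfold gg
  field_simp

theorem H_real {m : ℕ} (hm0 : m ≠ 0) :
    (sigma 1 m : ℝ) = (m * m.divisors.card) * ∏ p ∈ m.primeFactors, uu p (m.factorization p) := by
  rw [prod_eq hm0, ← Finset.prod_mul_distrib, sigma_prod hm0]
  push_cast
  refine Finset.prod_congr rfl fun p hp => ?_
  have hp' : (0 : ℝ) < p := by exact_mod_cast (Nat.prime_of_mem_primeFactors hp).pos
  unfold uu
  field_simp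

end Pool.Agent.H727.T
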